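import Pool.Agent.H365.TF.Stm
import Pool.Agent.H365.Ext

/-!
# Project TF (helper365): membership in `K` and property (T) of `K`
-/

set_option autoImplicit false

namespace Pool.Agent.H365.TF

open Pool.Agent.N44.NS (E3 el)
open Pool.Agent.W661.RC (HasT)

namespace KTH747

section

variable {A B : Type} [Ring A] [Ring B]

/-- entries in the image of `i` -/
def Ent (i : B →+* A) (x : Matrix (Fin 3) (Fin 3) A) : Prop := ∀ j k, ∃ b, x j k = i b

theorem Ent.zero (i : B →+* A) : Ent i 0 := fun _ _ => ⟨0, (map_zero i).symm⟩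

theorem Ent.one (i : B →+* A) : Ent i 1 := by
  intro j k
  rw [Matrix.one_apply]
  split_ifs
  · exact ⟨1, (map_one i).symm⟩
  · exact ⟨0, (map_zero i).symm⟩

theorem Ent.add {i : B →+* A} {x y : Matrix (Fin 3) (Fin 3) A} (hx : Ent i x) (hy : Ent i y) :
    Ent i (x + y) := by
  intro j k
  obtain ⟨a, ha⟩ := hx j k
  obtain ⟨b, hb⟩ := hy j k
  exact ⟨a + b, by rw [Matrix.add_apply, ha, hb, map_add]⟩

theorem Ent.neg {i : B →+* A} {x : Matrix (Fin 3) (Fin 3) A} (hx : Ent i x) : Ent i (-x) := by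
  intro j k
  obtain ⟨a, ha⟩ := hx j k
  exact ⟨-a, by rw [Matrix.neg_apply, ha, map_neg]⟩

theorem Ent.mul {i : B →+* A} {x y : Matrix (Fin 3) (Fin 3) A} (hx : Ent i x) (hy : Ent i y) :
    Ent i (x * y) := by
  intro j k
  choose a ha using hx
  choose b hb using hy
  refine ⟨∑ l, a j l * b l k, ?_⟩
  rw [Matrix.mul_apply, map_sum]
  exact Finset.sum_congr rfl (fun l _ => by rw [ha, hb, map_mul])

theorem Ent.single {i : B →+* A} (j k : Fin 3) (b : B) : Ent i (Matrix.single j k (i b)) := by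
  intro j' k'
  rw [Matrix.single_apply]
  split_ifs
  · exact ⟨b, rfl⟩
  · exact ⟨0, (map_zero i).symm⟩

theorem ent_EB {i : B →+* A} {t : (Matrix (Fin 3) (Fin 3) A)ˣ} (ht : t ∈ EB i) :
    Ent i (t : Matrix (Fin 3) (Fin 3) A) := by
  obtain ⟨s, -, rfl⟩ := ht
  intro j k
  exact ⟨(s : Matrix (Fin 3) (Fin 3) B) j k, rfl⟩

/-- the subgroup `K` -/
def K' (i : B →+* A) : Subgroup (Tri (Matrix (Fin 3) (Fin 3) A)) where
  carrier := {u | u.h = 1 ∧ u.g ∈ EB i ∧ ∀ j k, ∃ b, u.x j k = i b}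
  one_mem' := ⟨rfl, (EB i).one_mem, Ent.zero i⟩
  mul_mem' := by
    rintro u v ⟨hu1, hu2, hu3⟩ ⟨hv1, hv2, hv3⟩
    refine ⟨?_, ?_, ?_⟩
    · rw [Tri.mul_h, hu1, hv1, one_mul]
    · rw [Tri.mul_g]
      exact (EB i).mul_mem hu2 hv2
    · show Ent i (u * v).x
      rw [Tri.mul_x, hv1, Units.val_one, mul_one]
      exact ((ent_EB hu2).mul hv3).add hu3
  inv_mem' := by
    rintro u ⟨hu1, hu2, hu3⟩
    refine ⟨?_, ?_, ?_⟩
    · rw [Tri.inv_h, hu1, inv_one]
    · rw [Tri.inv_g]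
      exact (EB i).inv_mem hu2
    · show Ent i (u⁻¹).x
      rw [Tri.inv_x, hu1, inv_one, Units.val_one, mul_one]
      exact ((ent_EB ((EB i).inv_mem hu2)).mul hu3).neg

end

end KTH747

open KTH747

theorem t_KM : S_KM := by
  intro A B _ _ i u
  have h : KK i = K' i := by
    apply le_antisymm
    · exact (Subgroup.closure_le _).mpr (fun v hv => hv)
    · exact fun v hv => Subgroup.subset_closure hv
  rw [h]
  rfl

namespace KTH747

section

variable {A B : Type} [Ring A] [Ring B]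

/-- the matrix `(1 x; 0 1)` -/
def T (x : Matrix (Fin 3) (Fin 3) A) : Tri (Matrix (Fin 3) (Fin 3) A) := ⟨1, x, 1⟩

theorem T_mul (x y : Matrix (Fin 3) (Fin 3) A) : T x * T y = T (x + y) := by
  refine Tri.ext ?_ ?_ ?_
  · rw [Tri.mul_g]
    exact one_mul _
  · rw [Tri.mul_x]
    show ((1 : (Matrix (Fin 3) (Fin 3) A)ˣ) : Matrix (Fin 3) (Fin 3) A) * y +
      x * ((1 : (Matrix (Fin 3) (Fin 3) A)ˣ) : Matrix (Fin 3) (Fin 3) A) = x + y
    rw [Units.val_one, one_mul, mul_one, add_comm]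
  · rw [Tri.mul_h]
    exact one_mul _

theorem T_zero : T (0 : Matrix (Fin 3) (Fin 3) A) = 1 := rfl

theorem T_inv (x : Matrix (Fin 3) (Fin 3) A) : (T x)⁻¹ = T (-x) := by
  rw [inv_eq_iff_mul_eq_one, T_mul, add_neg_cancel, T_zero]

theorem lHom_conj (g : (Matrix (Fin 3) (Fin 3) A)ˣ) (x : Matrix (Fin 3) (Fin 3) A) :
    lHom _ g * T x * (lHom _ g)⁻¹ = T ((g : Matrix (Fin 3) (Fin 3) A) * x) := by
  rw [← map_inv]
  refine Tri.ext ?_ ?_ ?_
  · rw [Tri.mul_g, Tri.mul_g]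
    show g * 1 * g⁻¹ = 1
    rw [mul_one, mul_inv_cancel]
  · rw [Tri.mul_x, Tri.mul_x]
    show ((_ : (Matrix (Fin 3) (Fin 3) A)ˣ) : Matrix (Fin 3) (Fin 3) A) * 0 +
      ((g : Matrix (Fin 3) (Fin 3) A) * x +
        0 * ((1 : (Matrix (Fin 3) (Fin 3) A)ˣ) : Matrix (Fin 3) (Fin 3) A)) *
      ((1 : (Matrix (Fin 3) (Fin 3) A)ˣ) : Matrix (Fin 3) (Fin 3) A) = _
    rw [Units.val_one, mul_one, mul_zero, zero_mul, zero_add, add_zero]
    rfl
  · rw [Tri.mul_h, Tri.mul_h]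
    show (1 : (Matrix (Fin 3) (Fin 3) A)ˣ) * 1 * 1 = 1
    rw [one_mul, one_mul]

theorem prod_T {κ : Type} (l : List κ) (F : κ → Matrix (Fin 3) (Fin 3) A) :
    (l.map (fun p => T (F p))).prod = T ((l.map F).sum) := by
  induction l with
  | nil => rfl
  | cons a l ih => rw [List.map_cons, List.prod_cons, ih, T_mul, List.map_cons, List.sum_cons]

/-- the subgroup `V` -/
def VV (i : B →+* A) : Subgroup (Tri (Matrix (Fin 3) (Fin 3) A)) where
  carrier := {u | ∃ x, Ent i x ∧ u = T x}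
  one_mem' := ⟨0, Ent.zero i, rfl⟩
  mul_mem' := by
    rintro _ _ ⟨x, hx, rfl⟩ ⟨y, hy, rfl⟩
    exact ⟨x + y, hx.add hy, T_mul x y⟩
  inv_mem' := by
    rintro _ ⟨x, hx, rfl⟩
    exact ⟨-x, hx.neg, T_inv x⟩

/-- the homomorphism with image `L` -/
def psi (i : B →+* A) : (Matrix (Fin 3) (Fin 3) B)ˣ →* Tri (Matrix (Fin 3) (Fin 3) A) :=
  (lHom _).comp (Units.map (i.mapMatrix (m := Fin 3)).toMonoidHom)

theorem KK_eq (i : B →+* A) : KK i = (E3 B).map (psi i) ⊔ VV i := by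
  apply le_antisymm
  · intro u hu
    obtain ⟨h1, h2, h3⟩ := (t_KM A B i u).mp hu
    have e : u = T u.x * lHom _ u.g := by
      refine Tri.ext ?_ ?_ ?_
      · rw [Tri.mul_g]
        exact (one_mul _).symm
      · rw [Tri.mul_x]
        show u.x = ((1 : (Matrix (Fin 3) (Fin 3) A)ˣ) : Matrix (Fin 3) (Fin 3) A) * 0 +
          u.x * ((1 : (Matrix (Fin 3) (Fin 3) A)ˣ) : Matrix (Fin 3) (Fin 3) A)
        rw [Units.val_one, mul_zero, mul_one, zero_add]
      · rw [Tri.mul_h, h1]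
        exact (one_mul _).symm
    rw [e]
    obtain ⟨s, hs, hs2⟩ := h2
    apply Subgroup.mul_mem
    · exact Subgroup.mem_sup_right ⟨u.x, h3, rfl⟩
    · apply Subgroup.mem_sup_left
      refine ⟨s, hs, ?_⟩
      show lHom _ (Units.map (i.mapMatrix (m := Fin 3)).toMonoidHom s) = _
      rw [hs2]
  · apply sup_le
    · rintro _ ⟨s, hs, rfl⟩
      exact Subgroup.subset_closure ⟨rfl, ⟨s, hs, rfl⟩, Ent.zero i⟩
    · rintro _ ⟨x, hx, rfl⟩
      exact Subgroup.subset_closure ⟨rfl, (EB i).one_mem, hx⟩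

theorem comm_el (i : B →+* A) (p j k : Fin 3) (hpj : p ≠ j) (b : B) :
    T (Matrix.single p k (i b)) = psi i (el p j hpj b) * T (Matrix.single j k (1 : A)) *
      (psi i (el p j hpj b))⁻¹ * (T (Matrix.single j k (1 : A)))⁻¹ := by
  have e1 : ((Units.map (i.mapMatrix (m := Fin 3)).toMonoidHom (el p j hpj b) :
      (Matrix (Fin 3) (Fin 3) A)ˣ) : Matrix (Fin 3) (Fin 3) A) = 1 + Matrix.single p j (i b) := by
    show i.mapMatrix (1 + Matrix.single p j b) = _
    rw [map_add, map_one]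
    congr 1
    ext a c
    rw [RingHom.mapMatrix_apply, Matrix.map_apply, Matrix.single_apply, Matrix.single_apply]
    split_ifs
    · rfl
    · exact map_zero i
  show _ = lHom _ _ * _ * (lHom _ _)⁻¹ * _
  rw [lHom_conj, T_inv, T_mul, e1, add_mul, one_mul, Matrix.single_mul_single_same, mul_one]
  congr 1
  abel

end

end KTH747

open KTH747

theorem t_KT (hS : S_SEMI) : S_KT := by
  classical
  intro A B _ _ i hT
  have hL : HasT ((E3 B).map (psi i)) :=
    Pool.Agent.H365.hasT_quot ((psi i).subgroupMap (E3 B)) ((psi i).subgroupMap_surjective (E3 B))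
      hT
  have h := hS (Tri (Matrix (Fin 3) (Fin 3) A)) ((E3 B).map (psi i)) (VV i)
    (Finset.univ.image (fun p : Fin 3 × Fin 3 => T (Matrix.single p.1 p.2 (1 : A)))) 9 hL ?_ ?_ ?_
  · rw [KK_eq]
    exact h
  · rintro _ ⟨s, hs, rfl⟩ _ ⟨x, hx, rfl⟩
    refine ⟨_, ?_, lHom_conj (Units.map (i.mapMatrix (m := Fin 3)).toMonoidHom s) x⟩
    exact (ent_EB ⟨s, hs, rfl⟩).mul hx
  · intro y hy
    obtain ⟨p, -, rfl⟩ := Finset.mem_image.mp hy
    refine ⟨_, ?_, rfl⟩
    have := Ent.single (i := i) p.1 p.2 1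
    rwa [map_one] at this
  · rintro _ ⟨x, hx, rfl⟩
    choose b hb using hx
    refine ⟨(Finset.univ : Finset (Fin 3 × Fin 3)).toList.map
      (fun p => T (Matrix.single p.1 p.2 (x p.1 p.2))), ?_, ?_, ?_⟩
    · rw [List.length_map, Finset.length_toList]
      rfl
    · rw [prod_T, Finset.sum_map_toList, Fintype.sum_prod_type]
      congr 1
      exact (Matrix.matrix_eq_sum_single x).symm
    · intro u hu
      rw [List.mem_map] at hu
      obtain ⟨p, -, rfl⟩ := hu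
      have hne : p.1 ≠ p.1 + 1 := by
        have : ∀ q : Fin 3, q ≠ q + 1 := by decide
        exact this _
      refine ⟨psi i (el p.1 (p.1 + 1) hne (b p.1 p.2)), ⟨_, ?_, rfl⟩,
        T (Matrix.single (p.1 + 1) p.2 (1 : A)), ?_, ?_⟩
      · exact Subgroup.subset_closure ⟨_, _, _, _, rfl⟩
      · exact Finset.mem_image.mpr ⟨(p.1 + 1, p.2), Finset.mem_univ _, rfl⟩
      · rw [hb]
        exact comm_el i p.1 (p.1 + 1) p.2 hne (b p.1 p.2)

end Pool.Agent.H365.TF
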